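import Pool.Agent.U722.FF.Stm

/-!
# A tree on which `GL_2(ℤ)` acts with finite stabilizers

The vertices are the binary forms `a x² + b x y + c y²` in the orbit of `x² + x y + y²`, and two of them are
joined if their mixed discriminant `2 a c' + 2 c a' - b b'` is `5`.
-/

set_option autoImplicit false

namespace Pool.Agent.U978.FFP

open Matrix MulAction

/-- binary quadratic forms -/
@[ext] structure Fm where
  a : ℤ
  b : ℤ
  c : ℤ

noncomputable instance : MulAction (GL (Fin 2) ℤ) Fm where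
  smul g Q :=
    ⟨Q.a * g.1 0 0 ^ 2 + Q.b * (g.1 0 0 * g.1 0 1) + Q.c * g.1 0 1 ^ 2,
      2 * Q.a * g.1 0 0 * g.1 1 0 + Q.b * (g.1 0 0 * g.1 1 1 + g.1 0 1 * g.1 1 0) +
        2 * Q.c * g.1 0 1 * g.1 1 1,
      Q.a * g.1 1 0 ^ 2 + Q.b * (g.1 1 0 * g.1 1 1) + Q.c * g.1 1 1 ^ 2⟩
  one_smul Q := by
    have e00 : (1 : GL (Fin 2) ℤ).1 0 0 = 1 := by simp
    have e01 : (1 : GL (Fin 2) ℤ).1 0 1 = 0 := by simp
    have e10 : (1 : GL (Fin 2) ℤ).1 1 0 = 0 := by simp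
    have e11 : (1 : GL (Fin 2) ℤ).1 1 1 = 1 := by simp
    ext
    · change Q.a * (1 : GL (Fin 2) ℤ).1 0 0 ^ 2 + Q.b * ((1 : GL (Fin 2) ℤ).1 0 0 *
        (1 : GL (Fin 2) ℤ).1 0 1) + Q.c * (1 : GL (Fin 2) ℤ).1 0 1 ^ 2 = Q.a
      rw [e00, e01]
      ring
    · change 2 * Q.a * (1 : GL (Fin 2) ℤ).1 0 0 * (1 : GL (Fin 2) ℤ).1 1 0 +
        Q.b * ((1 : GL (Fin 2) ℤ).1 0 0 * (1 : GL (Fin 2) ℤ).1 1 1 + (1 : GL (Fin 2) ℤ).1 0 1 *
        (1 : GL (Fin 2) ℤ).1 1 0) +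
        2 * Q.c * (1 : GL (Fin 2) ℤ).1 0 1 * (1 : GL (Fin 2) ℤ).1 1 1 = Q.b
      rw [e00, e01, e10, e11]
      ring
    · change Q.a * (1 : GL (Fin 2) ℤ).1 1 0 ^ 2 + Q.b * ((1 : GL (Fin 2) ℤ).1 1 0 *
        (1 : GL (Fin 2) ℤ).1 1 1) + Q.c * (1 : GL (Fin 2) ℤ).1 1 1 ^ 2 = Q.c
      rw [e10, e11]
      ring
  mul_smul g h Q := by
    have e : ∀ i j, (g * h).1 i j = g.1 i 0 * h.1 0 j + g.1 i 1 * h.1 1 j := by
      intro i j
      rw [Units.val_mul, Matrix.mul_apply, Fin.sum_univ_two]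
    ext
    · change Q.a * (g * h).1 0 0 ^ 2 + Q.b * ((g * h).1 0 0 * (g * h).1 0 1) +
        Q.c * (g * h).1 0 1 ^ 2 = _
      rw [e, e]
      change _ = (Q.a * h.1 0 0 ^ 2 + Q.b * (h.1 0 0 * h.1 0 1) + Q.c * h.1 0 1 ^ 2) *
        g.1 0 0 ^ 2 + (2 * Q.a * h.1 0 0 * h.1 1 0 + Q.b * (h.1 0 0 * h.1 1 1 +
        h.1 0 1 * h.1 1 0) + 2 * Q.c * h.1 0 1 * h.1 1 1) * (g.1 0 0 * g.1 0 1) +
        (Q.a * h.1 1 0 ^ 2 + Q.b * (h.1 1 0 * h.1 1 1) + Q.c * h.1 1 1 ^ 2) * g.1 0 1 ^ 2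
      ring
    · change 2 * Q.a * (g * h).1 0 0 * (g * h).1 1 0 + Q.b * ((g * h).1 0 0 * (g * h).1 1 1 +
        (g * h).1 0 1 * (g * h).1 1 0) + 2 * Q.c * (g * h).1 0 1 * (g * h).1 1 1 = _
      rw [e, e, e, e]
      change _ = 2 * (Q.a * h.1 0 0 ^ 2 + Q.b * (h.1 0 0 * h.1 0 1) + Q.c * h.1 0 1 ^ 2) *
        g.1 0 0 * g.1 1 0 + (2 * Q.a * h.1 0 0 * h.1 1 0 + Q.b * (h.1 0 0 * h.1 1 1 +
        h.1 0 1 * h.1 1 0) + 2 * Q.c * h.1 0 1 * h.1 1 1) * (g.1 0 0 * g.1 1 1 +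
        g.1 0 1 * g.1 1 0) +
        2 * (Q.a * h.1 1 0 ^ 2 + Q.b * (h.1 1 0 * h.1 1 1) + Q.c * h.1 1 1 ^ 2) * g.1 0 1 * g.1 1 1
      ring
    · change Q.a * (g * h).1 1 0 ^ 2 + Q.b * ((g * h).1 1 0 * (g * h).1 1 1) +
        Q.c * (g * h).1 1 1 ^ 2 = _
      rw [e, e]
      change _ = (Q.a * h.1 0 0 ^ 2 + Q.b * (h.1 0 0 * h.1 0 1) + Q.c * h.1 0 1 ^ 2) *
        g.1 1 0 ^ 2 + (2 * Q.a * h.1 0 0 * h.1 1 0 + Q.b * (h.1 0 0 * h.1 1 1 +
        h.1 0 1 * h.1 1 0) + 2 * Q.c * h.1 0 1 * h.1 1 1) * (g.1 1 0 * g.1 1 1) +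
        (Q.a * h.1 1 0 ^ 2 + Q.b * (h.1 1 0 * h.1 1 1) + Q.c * h.1 1 1 ^ 2) * g.1 1 1 ^ 2
      ring

lemma smul_a (g : GL (Fin 2) ℤ) (Q : Fm) :
    (g • Q).a = Q.a * g.1 0 0 ^ 2 + Q.b * (g.1 0 0 * g.1 0 1) + Q.c * g.1 0 1 ^ 2 := rfl

lemma smul_b (g : GL (Fin 2) ℤ) (Q : Fm) :
    (g • Q).b = 2 * Q.a * g.1 0 0 * g.1 1 0 + Q.b * (g.1 0 0 * g.1 1 1 + g.1 0 1 * g.1 1 0) +
        2 * Q.c * g.1 0 1 * g.1 1 1 := rfl

lemma smul_c (g : GL (Fin 2) ℤ) (Q : Fm) :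
    (g • Q).c = Q.a * g.1 1 0 ^ 2 + Q.b * (g.1 1 0 * g.1 1 1) + Q.c * g.1 1 1 ^ 2 := rfl

lemma det_sq (g : GL (Fin 2) ℤ) : (g.1 0 0 * g.1 1 1 - g.1 0 1 * g.1 1 0) ^ 2 = 1 := by
  rw [← Matrix.det_fin_two]
  have h : IsUnit g.1.det := (Matrix.isUnit_iff_isUnit_det g.1).1 g.isUnit
  rcases Int.isUnit_iff.1 h with h | h
  · rw [h]; norm_num
  · rw [h]; norm_num

/-- the mixed discriminant -/
def pair (P Q : Fm) : ℤ := 2 * P.a * Q.c + 2 * P.c * Q.a - P.b * Q.b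

lemma pair_comm (P Q : Fm) : pair P Q = pair Q P := by
  unfold pair
  ring

lemma pair_smul (g : GL (Fin 2) ℤ) (P Q : Fm) : pair (g • P) (g • Q) = pair P Q := by
  unfold pair
  rw [smul_a, smul_b, smul_c, smul_a, smul_b, smul_c]
  linear_combination (2 * P.a * Q.c + 2 * P.c * Q.a - P.b * Q.b) * det_sq g

lemma pair_inv (g : GL (Fin 2) ℤ) (P Q : Fm) : pair P (g • Q) = pair (g⁻¹ • P) Q := by
  calc pair P (g • Q) = pair (g • (g⁻¹ • P)) (g • Q) := by rw [smul_inv_smul]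
    _ = _ := pair_smul g _ _

/-- the form `x² + x y + y²` -/
def Q0 : Fm := ⟨1, 1, 1⟩

lemma pair_self (g : GL (Fin 2) ℤ) : pair (g • Q0) (g • Q0) = 3 := by
  rw [pair_smul]
  rfl

lemma pos_a (g : GL (Fin 2) ℤ) : 0 < (g • Q0).a := by
  rw [smul_a]
  change 0 < 1 * g.1 0 0 ^ 2 + 1 * (g.1 0 0 * g.1 0 1) + 1 * g.1 0 1 ^ 2
  by_contra h
  have h1 : g.1 0 1 = 0 := by nlinarith [sq_nonneg (2 * g.1 0 0 + g.1 0 1), sq_nonneg (g.1 0 1)]
  have h2 : g.1 0 0 = 0 := by nlinarith [sq_nonneg (g.1 0 0)]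
  have h3 := det_sq g
  rw [h1, h2] at h3
  norm_num at h3

lemma pos_c (g : GL (Fin 2) ℤ) : 0 < (g • Q0).c := by
  rw [smul_c]
  change 0 < 1 * g.1 1 0 ^ 2 + 1 * (g.1 1 0 * g.1 1 1) + 1 * g.1 1 1 ^ 2
  by_contra h
  have h1 : g.1 1 1 = 0 := by nlinarith [sq_nonneg (2 * g.1 1 0 + g.1 1 1), sq_nonneg (g.1 1 1)]
  have h2 : g.1 1 0 = 0 := by nlinarith [sq_nonneg (g.1 1 0)]
  have h3 := det_sq g
  rw [h1, h2] at h3
  norm_num at h3

/-- the numbers of a form in the orbit -/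
structure Nice (P : Fm) : Prop where
  a : 0 < P.a
  c : 0 < P.c
  d : 4 * P.a * P.c - P.b ^ 2 = 3

lemma nice (g : GL (Fin 2) ℤ) : Nice (g • Q0) :=
  ⟨pos_a g, pos_c g, by
    have := pair_self g
    unfold pair at this
    linear_combination this⟩

lemma Nice.odd {P : Fm} (h : Nice P) : P.b % 2 = 1 := by
  have h1 := h.d
  rcases Int.even_or_odd' P.b with ⟨k, hk | hk⟩
  · exfalso
    rw [hk] at h1
    have : 4 * (P.a * P.c - k ^ 2) = 3 := by linear_combination h1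
    omega
  · omega

lemma Nice.pos {P : Fm} (h : Nice P) : 0 < 2 * P.a + 2 * P.c - P.b := by
  have h1 := h.a
  have h2 := h.c
  have h3 := h.d
  by_contra h4
  have h5 : 2 * P.a + 2 * P.c ≤ P.b := by linarith
  have h6 : (2 * P.a + 2 * P.c) ^ 2 ≤ P.b ^ 2 := by
    apply pow_le_pow_left₀ (by linarith) h5
  nlinarith [sq_nonneg (P.a - P.c), mul_pos h1 h2]

/-- the three neighbours of the first vertex -/
def N1 : Fm := ⟨1, -1, 1⟩
def N2 : Fm := ⟨1, 3, 3⟩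
def N3 : Fm := ⟨3, 3, 1⟩

lemma nbr {P : Fm} (h : Nice P) (h5 : pair Q0 P = 5) : P = N1 ∨ P = N2 ∨ P = N3 := by
  have h1 : 2 * P.c + 2 * P.a - P.b = 5 := by
    unfold pair Q0 at h5
    simp only at h5
    linear_combination h5
  have h2 := h.d
  have h3 : P.b = 2 * P.c + 2 * P.a - 5 := by linarith
  rw [h3] at h2
  have ha := h.a
  have hc := h.c
  have hc3 : P.c ≤ 3 := by
    by_contra h4
    have h4' : 4 ≤ P.c := by omega
    nlinarith [sq_nonneg (2 * P.a + P.c - 5)]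
  have ha3 : P.a ≤ 3 := by
    by_contra h4
    have h4' : 4 ≤ P.a := by omega
    nlinarith [sq_nonneg (2 * P.c + P.a - 5)]
  obtain ⟨a, b, c⟩ := P
  simp only at *
  subst h3
  interval_cases a <;> interval_cases c <;> simp_all [N1, N2, N3]

def m1 : GL (Fin 2) ℤ := ⟨!![1, 0; 0, -1], !![1, 0; 0, -1], by decide, by decide⟩
def m2 : GL (Fin 2) ℤ := ⟨!![1, 0; 1, 1], !![1, 0; -1, 1], by decide, by decide⟩
def m3 : GL (Fin 2) ℤ := ⟨!![1, 1; 1, 0], !![0, 1; 1, -1], by decide, by decide⟩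

lemma m1_Q0 : m1 • Q0 = N1 := by
  ext <;> simp [smul_a, smul_b, smul_c, m1, Q0, N1]
lemma m2_Q0 : m2 • Q0 = N2 := by
  ext <;> simp [smul_a, smul_b, smul_c, m2, Q0, N2]
lemma m3_Q0 : m3 • Q0 = N3 := by
  ext <;> simp [smul_a, smul_b, smul_c, m3, Q0, N3]

/-- the vertices -/
abbrev V : Type := orbit (GL (Fin 2) ℤ) Q0

lemma V.out (v : V) : ∃ g : GL (Fin 2) ℤ, v.1 = g • Q0 := by
  obtain ⟨g, hg⟩ := v.2
  exact ⟨g, hg.symm⟩

/-- the graph -/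
def T : SimpleGraph V where
  Adj u v := pair u.1 v.1 = 5
  symm := ⟨fun u v h => by rw [pair_comm]; exact h⟩
  loopless := ⟨fun u h => by
    obtain ⟨g, hg⟩ := u.out
    rw [hg, pair_self] at h
    omega⟩

/-- the level -/
def lv (v : V) : ℕ := (pair Q0 v.1).toNat

lemma pair_Q0 (P : Fm) : pair P Q0 = 2 * P.a + 2 * P.c - P.b := by
  unfold pair Q0
  ring

lemma pair_pos (g h : GL (Fin 2) ℤ) : 0 < pair (g • Q0) (h • Q0) := by
  rw [pair_inv, smul_smul, pair_Q0]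
  exact (nice _).pos

lemma lv_eq (v : V) : (lv v : ℤ) = pair Q0 v.1 := by
  obtain ⟨g, hg⟩ := v.out
  unfold lv
  rw [Int.toNat_of_nonneg]
  rw [hg]
  have := pair_pos 1 g
  rw [one_smul] at this
  exact this.le

/-- the neighbours of a vertex and their levels -/
lemma key (v : V) : ∃ (g : GL (Fin 2) ℤ) (P : Fm), Nice P ∧ P = g⁻¹ • Q0 ∧ v.1 = g • Q0 ∧
    (lv v : ℤ) = 2 * P.a + 2 * P.c - P.b ∧ ∀ u : V, T.Adj v u →
      (u.1 = g • N1 ∧ (lv u : ℤ) = lv v + 2 * P.b) ∨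
      (u.1 = g • N2 ∧ (lv u : ℤ) = lv v + 2 * (2 * P.a - P.b)) ∨
      (u.1 = g • N3 ∧ (lv u : ℤ) = lv v + 2 * (2 * P.c - P.b)) := by
  obtain ⟨g, hg⟩ := v.out
  have hlv : (lv v : ℤ) = 2 * (g⁻¹ • Q0).a + 2 * (g⁻¹ • Q0).c - (g⁻¹ • Q0).b := by
    rw [lv_eq, hg, pair_inv, pair_Q0]
  refine ⟨g, g⁻¹ • Q0, nice _, rfl, hg, hlv, fun u hu => ?_⟩
  have hu' : pair v.1 u.1 = 5 := hu
  obtain ⟨h, hh⟩ := u.out
  have h1 : pair Q0 (g⁻¹ • u.1) = 5 := by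
    rw [← hu', pair_inv, inv_inv, hg]
  have h2 : Nice (g⁻¹ • u.1) := by
    rw [hh, smul_smul]
    exact nice _
  have h3 : (lv u : ℤ) = pair (g⁻¹ • Q0) (g⁻¹ • u.1) := by
    rw [pair_smul, lv_eq]
  rcases nbr h2 h1 with h4 | h4 | h4
  · left
    refine ⟨by rw [← h4, smul_inv_smul], ?_⟩
    rw [h3, h4, hlv]
    unfold pair N1
    ring
  · right; left
    refine ⟨by rw [← h4, smul_inv_smul], ?_⟩
    rw [h3, h4, hlv]
    unfold pair N2
    ring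
  · right; right
    refine ⟨by rw [← h4, smul_inv_smul], ?_⟩
    rw [h3, h4, hlv]
    unfold pair N3
    ring

lemma mem_orb (g m : GL (Fin 2) ℤ) (N : Fm) (h : m • Q0 = N) : g • N ∈ orbit (GL (Fin 2) ℤ) Q0 :=
  ⟨g * m, by
    change (g * m) • Q0 = g • N
    rw [mul_smul, h]⟩

lemma adj_mem {v : V} {g : GL (Fin 2) ℤ} (hg : v.1 = g • Q0) {N : Fm} (hN : pair Q0 N = 5)
    (hm : g • N ∈ orbit (GL (Fin 2) ℤ) Q0) : T.Adj v ⟨g • N, hm⟩ := by
  change pair v.1 (g • N) = 5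
  rw [hg, pair_smul, hN]

theorem isTree : T.IsTree := by
  refine Pool.Agent.U709.BT.isTree_of_level T lv ⟨Q0, mem_orbit_self _⟩ ?_ ?_ ?_
  · intro u v huv h
    obtain ⟨g, P, hP, -, -, -, hn⟩ := key u
    have ho := hP.odd
    rcases hn v huv with ⟨-, h1⟩ | ⟨-, h1⟩ | ⟨-, h1⟩ <;> omega
  · intro v hv
    obtain ⟨g, P, hP, hPg, hvg, hlv, hn⟩ := key v
    have ho := hP.odd
    have a1 := adj_mem hvg (N := N1) rfl (mem_orb g m1 N1 m1_Q0)
    have a2 := adj_mem hvg (N := N2) rfl (mem_orb g m2 N2 m2_Q0)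
    have a3 := adj_mem hvg (N := N3) rfl (mem_orb g m3 N3 m3_Q0)
    have hne12 : N1 ≠ N2 := fun h => by have := congrArg Fm.c h; simp [N1, N2] at this
    have hne13 : N1 ≠ N3 := fun h => by have := congrArg Fm.a h; simp [N1, N3] at this
    have hne23 : N2 ≠ N3 := fun h => by have := congrArg Fm.a h; simp [N2, N3] at this
    have l1 : (lv ⟨g • N1, mem_orb g m1 N1 m1_Q0⟩ : ℤ) = lv v + 2 * P.b := by
      rcases hn _ a1 with ⟨-, h1⟩ | ⟨h2, -⟩ | ⟨h2, -⟩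
      · exact h1
      · exact absurd (smul_left_cancel g h2) hne12
      · exact absurd (smul_left_cancel g h2) hne13
    have l2 : (lv ⟨g • N2, mem_orb g m2 N2 m2_Q0⟩ : ℤ) = lv v + 2 * (2 * P.a - P.b) := by
      rcases hn _ a2 with ⟨h2, -⟩ | ⟨-, h1⟩ | ⟨h2, -⟩
      · exact absurd (smul_left_cancel g h2).symm hne12
      · exact h1
      · exact absurd (smul_left_cancel g h2) hne23
    have l3 : (lv ⟨g • N3, mem_orb g m3 N3 m3_Q0⟩ : ℤ) = lv v + 2 * (2 * P.c - P.b) := by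
      rcases hn _ a3 with ⟨h2, -⟩ | ⟨h2, -⟩ | ⟨-, h1⟩
      · exact absurd (smul_left_cancel g h2).symm hne13
      · exact absurd (smul_left_cancel g h2).symm hne23
      · exact h1
    by_contra hcon
    push Not at hcon
    have b1 := hcon _ a1
    have b2 := hcon _ a2
    have b3 := hcon _ a3
    have c1 : 0 < P.b := by omega
    have c2 : P.b + 1 ≤ 2 * P.a := by omega
    have c3 : P.b + 1 ≤ 2 * P.c := by omega
    have hd := hP.d
    have hb1 : P.b = 1 := by nlinarith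
    have hac : P.a * P.c = 1 := by
      rw [hb1] at hd
      linarith
    have ha1 : P.a = 1 := by
      have := hP.a
      have := hP.c
      nlinarith
    have hc1 : P.c = 1 := by
      rw [ha1] at hac
      linarith
    have hPQ : P = Q0 := by
      ext
      · exact ha1
      · exact hb1
      · exact hc1
    apply hv
    apply Subtype.ext
    change v.1 = Q0
    have h1 : g⁻¹ • Q0 = Q0 := by rw [← hPg, hPQ]
    rw [hvg]
    conv_lhs => rw [← h1]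
    rw [smul_inv_smul]
  · intro v u u' hu hu' hl hl'
    obtain ⟨g, P, hP, -, -, -, hn⟩ := key v
    have ha := hP.a
    have hc := hP.c
    have hd := hP.d
    have no12 : ¬ (P.b < 0 ∧ 2 * P.a < P.b) := by omega
    have no13 : ¬ (P.b < 0 ∧ 2 * P.c < P.b) := by omega
    have no23 : ¬ (2 * P.a < P.b ∧ 2 * P.c < P.b) := by
      rintro ⟨h1, h2⟩
      nlinarith
    apply Subtype.ext
    rcases hn u hu with ⟨e1, h1⟩ | ⟨e1, h1⟩ | ⟨e1, h1⟩ <;>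
      rcases hn u' hu' with ⟨e2, h2⟩ | ⟨e2, h2⟩ | ⟨e2, h2⟩ <;>
      first
        | exact e1.trans e2.symm
        | (exfalso; omega)

/-- the stabilizer of the first vertex is finite -/
lemma fin0 : Finite ↥(stabilizer (GL (Fin 2) ℤ) Q0) := by
  have hb : ∀ g ∈ stabilizer (GL (Fin 2) ℤ) Q0, ∀ i j, g.1 i j ∈ Set.Icc (-1 : ℤ) 1 := by
    intro g hg i j
    have h : g • Q0 = Q0 := hg
    have h1 : (g • Q0).a = 1 := by rw [h]; rfl
    have h2 : (g • Q0).c = 1 := by rw [h]; rfl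
    rw [smul_a] at h1
    rw [smul_c] at h2
    change 1 * g.1 0 0 ^ 2 + 1 * (g.1 0 0 * g.1 0 1) + 1 * g.1 0 1 ^ 2 = 1 at h1
    change 1 * g.1 1 0 ^ 2 + 1 * (g.1 1 0 * g.1 1 1) + 1 * g.1 1 1 ^ 2 = 1 at h2
    have aux : ∀ x y : ℤ, 1 * x ^ 2 + 1 * (x * y) + 1 * y ^ 2 = 1 →
        x ∈ Set.Icc (-1 : ℤ) 1 := by
      intro x y hxy
      constructor
      · by_contra h3
        have h4 : x ≤ -2 := by omega
        nlinarith [sq_nonneg (x + 2 * y)]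
      · by_contra h3
        have h4 : 2 ≤ x := by omega
        nlinarith [sq_nonneg (x + 2 * y)]
    fin_cases i <;> fin_cases j
    · exact aux _ _ h1
    · exact aux (g.1 0 1) (g.1 0 0) (by linear_combination h1)
    · exact aux _ _ h2
    · exact aux (g.1 1 1) (g.1 1 0) (by linear_combination h2)
  let F : ↥(stabilizer (GL (Fin 2) ℤ) Q0) → (Fin 2 → Fin 2 → Set.Icc (-1 : ℤ) 1) :=
    fun g i j => ⟨g.1.1 i j, hb g.1 g.2 i j⟩
  apply Finite.of_injective F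
  intro g h hgh
  apply Subtype.ext
  apply Units.ext
  ext i j
  exact congrArg Subtype.val (congrFun (congrFun hgh i) j)

theorem t_FAR : U722.FF.S_FAR := by
  refine ⟨V, inferInstance, T, isTree, fun g u v h => ?_, fun v => ?_⟩
  · change pair (g • u).1 (g • v).1 = 5
    have h' : pair u.1 v.1 = 5 := h
    rw [← h', orbit.coe_smul, orbit.coe_smul, pair_smul]
  · obtain ⟨g, hg⟩ := v.out
    have h0 := fin0
    let F : ↥(stabilizer (GL (Fin 2) ℤ) v) → ↥(stabilizer (GL (Fin 2) ℤ) Q0) :=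
      fun k => ⟨g⁻¹ * k.1 * g, by
        have hk : k.1 • v = v := k.2
        have hk' : k.1 • v.1 = v.1 := by
          conv_rhs => rw [← hk]
          rfl
        change (g⁻¹ * k.1 * g) • Q0 = Q0
        rw [mul_smul, mul_smul, ← hg, hk', hg, inv_smul_smul]⟩
    apply Finite.of_injective F
    intro k l hkl
    apply Subtype.ext
    have := congrArg Subtype.val hkl
    change g⁻¹ * k.1 * g = g⁻¹ * l.1 * g at this
    exact mul_left_cancel (mul_right_cancel this)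

end Pool.Agent.U978.FFP
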